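import Mathlib
import Pool.Agent.Run7.h541.IdxE

set_option autoImplicit false

/-!
# The index of an odd perfect number at a prime power

Let `N` be an odd perfect number, `p ^ a` a prime power exactly dividing `N`, `m = N / p ^ a` and
`s = σ(m) / p ^ a` the index; then `2 m = s σ(p ^ a)`.  We show `N ≤ (e s) ^ (81000 (Ω(s) + 1))`, hence
`s ≥ exp ((log N) ^ (1 / 2) / 403 - 1)`.

Proof. Write `σ(r ^ e) = p ^ c * u`, `p ∤ u`, for the components `r ^ e` of `m`; so the exponents
`c` have the sum `a` and the numbers `u` have the product `s`.  Let `g` be the common divisor of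
`r ^ e` and `s`.  Then `p ^ (a + 1) = 1` modulo `r ^ e / g`, and `p ^ c * u * (1 - r) = 1` modulo
`r ^ e`.  Divide `a + 1` by `c`: with quotient `y` and `z = y + 1`, one gets `t ≤ c / 2` such that
`p ^ t = (u (1 - r)) ^ y` or `p ^ t * (u (1 - r)) ^ z = 1` modulo `r ^ e / g`.

* `u ≥ 2`: the relation is not an equality, since `u` does not divide `p ^ t`.  Padé approximations
  of `(1 - x) ^ h` at `x = r` (starting library, project `Pool.Agent.N611.OP`), the binomial
  expansion modulo `r ^ e` (for `e ≤ 16`) or the size alone (for `r ≤ 2 ^ 64`) give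
  `log (p ^ (a + 1)) ≤ 151 z ^ 2 log u` or `log (p ^ (a + 1)) ≤ 16 z log g`.
* `u = 1`: `r ^ (e - 1) ∣ s (a + 1)` by the lifting lemma; so these components together are at most
  a power of `s (a + 1)`.

There are at most `Ω(s)` components with `u ≥ 2`, and the products of the `u` and of the `g` are at
most `s`.
-/

namespace Pool.Agent.Results.MP_f02ea4_nt.IndexStretched
open Finset
open Pool.Agent.W137.Count Pool.Agent.W137.Index

/-- **Main theorem.** Let `N` be an odd perfect number, `p` a prime factor of `N`, `a = v_p(N)`,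
and `s = σ(N / p ^ a) / p ^ a` (an integer).  Then `N ≤ (e s) ^ (81000 (Ω(s) + 1))`,
where `Ω(s)` is the number of the prime factors of `s` with multiplicity.  Hence
`s ≥ exp ((log N) ^ (1 / 2) / 403 - 1)` and
`p ^ a ≤ (2 N) ^ (1 / 2) exp (1 / 2 - (log N) ^ (1 / 2) / 806)`. -/
theorem result (N : ℕ) (hodd : Odd N) (hperf : N.Perfect) (p : ℕ) (hp : p.Prime) (hpN : p ∣ N)
    (a : ℕ) (ha : a = N.factorization p) (s : ℕ)
    (hs : s = (∑ d ∈ (N / p ^ a).divisors, d) / p ^ a) :
    p ^ a ∣ ∑ d ∈ (N / p ^ a).divisors, d ∧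
    (N : ℝ) ≤ (Real.exp 1 * s) ^ (81000 * (ArithmeticFunction.cardFactors s + 1)) ∧
    Real.exp (Real.sqrt (Real.log N) / 403 - 1) ≤ s ∧
    ((p : ℝ) ^ a) ^ 2 ≤ 2 * N * Real.exp (1 - Real.sqrt (Real.log N) / 403) := by
  have hN0 : N ≠ 0 := hperf.2.ne'
  have ha1 : 1 ≤ a := by
    rw [ha]; exact hp.factorization_pos_of_dvd hN0 hpN
  set m := N / p ^ a with hm
  have hNm : N = p ^ a * m := by
    rw [hm, ha]; exact (Nat.ordProj_mul_ordCompl_eq_self N p).symm
  have hpm : ¬ p ∣ m := by
    rw [hm, ha]; exact Nat.not_dvd_ordCompl hp hN0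
  have hsgN : sg N = 2 * N := (Nat.perfect_iff_sum_divisors_eq_two_mul hperf.2).1 hperf
  have hcop : Nat.Coprime (p ^ a) m :=
    Nat.Coprime.pow_left _ ((Nat.Prime.coprime_iff_not_dvd hp).2 hpm)
  have hdvd : p ^ a ∣ sg m := by
    have h1 : p ^ a ∣ S p a * sg m := by
      have h2 : S p a * sg m = 2 * N := by
        rw [← hsgN]
        conv_rhs => rw [hNm]
        rw [sg_mul hcop, sg_prime_pow hp]
      rw [h2]
      exact (Dvd.intro _ hNm.symm).mul_left 2
    exact (Nat.Coprime.pow_left a (S_coprime hp a)).dvd_of_dvd_mul_left h1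
  have hsm : sg m = s * p ^ a := by
    have h1 : s = sg m / p ^ a := hs
    rw [h1]
    exact (Nat.div_mul_cancel hdvd).symm
  have H : Data N p a m s :=
    { odd := hodd, perf := hsgN, hp := hp, ha := ha1, hN := hNm, hpm := hpm, hs := hsm }
  have hs0 : (0 : ℝ) < s := by exact_mod_cast H.s_pos
  have hNpos : (0 : ℝ) < N := by exact_mod_cast Nat.pos_of_ne_zero hN0
  refine ⟨hdvd, ?_, Pool.Agent.Run7.h541.Idx.s_ge2 H, Pool.Agent.Run7.h541.Idx.comp_sq2 H⟩
  have h1 := Pool.Agent.Run7.h541.Idx.log_N_le2 H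
  rw [← Real.log_le_log_iff hNpos (by positivity), Real.log_pow,
    Real.log_mul (Real.exp_pos 1).ne' hs0.ne', Real.log_exp]
  push_cast
  exact h1

end Pool.Agent.Results.MP_f02ea4_nt.IndexStretched
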