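import Mathlib
import Pool.Agent.W132.OPN.Asymp
import Pool.Agent.Run7.h541.GenCard

set_option autoImplicit false

/-!
# The `m`-th largest prime factor of an odd perfect number

For every `m` there are `C` and `κ` such that every odd perfect number `N` with at most `m` prime factors
larger than `y` satisfies `log N ≤ C y (1 + k) (1 + log log N) ^ κ`, where `k` is the number of the
prime factors `≤ y` of `N`.  As `k ≤ y`, for every `m` the `m`-th largest prime factor `P` of `N` is
at least `(log N) ^ (1 / 2 - o(1))`; and `P ω(N) ≥ (log N) ^ (1 - o(1))`.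

Proof.  Write `e_q` for the exponent of `q` in `N`, `n_q = e_q + 1`, `σ_q = σ (q ^ e_q)`, and `ℓ` for a
bound for all `log log`'s, and let `R` be the set of the at most `m` prime factors larger than `y`.

* `PrimG`.  Let `q ≤ y` and let `n_q` be odd.  By the theorem on primitive divisors each divisor `d > y` of
  `n_q` is the order of `q` modulo an element of `R`, so there are at most `m` of them; hence if
  `n_q > K y`, then `n_q` has at most `m` divisors `≤ K`.  Moreover `Φ_{n_q}(q)` is `u` times a product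
  of powers of elements of `R`, where `u ∣ n_q`.
* `CycGap`, `Elim`.  Suppose that there are `m + 1` such primes `q`, with `K = C ℓ ^ κ`.  The vectors of
  exponents in these products are linearly dependent over `ℤ` with coefficients which are determinants, so the
  unknown `log s` (`s ∈ R`) can be eliminated.  By Moebius inversion
  `log Φ_n(q) = ∑ μ(n / d) log (q ^ d - 1)`; for a suitable scale `E` no `n_q` has a divisor between
  `E` and a large power of `E ℓ`, so up to an error smaller than `exp (- (E ℓ) ^ κ')` only the numbers `q ^ d - 1`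
  with `d ≤ E` remain.  The result is a linear form in at most `4 (m + 1)` logarithms of numbers of height at
  most `E ℓ` which is too small for Baker's theorem unless it vanishes, and it does not vanish since
  its dominating terms do not cancel.  So at most `m` primes `q ≤ y` have an odd `n_q > K y` (`few_bad`), and at most
  one `n_q` is even.
* `Close`.  Let `I` be the union of `R` and of the set of the at most `m + 1` bad primes.  All other `q` satisfy
  `n_q ≤ K y`, so that they send at most `K ℓ y k` to the primes of `I`.  The argument of Heath-Brown and Cook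
  for the set `I` (`masses`) bounds `∑ n_p log p` over `I` by a constant times this number.
-/

namespace Pool.Agent.Results.MP_f02ea4_nt.MthLargestOmega

open Finset Pool.Agent.W132.OPN Pool.Agent.Run7.h541

/-- **Main theorem.**  Let `m` be a natural number.  There are `C > 0` and `κ` such that for every odd
perfect number `N` and every real number `y ≥ 1`: if at most `m` prime factors of `N` are larger than `y`,
and `k` prime factors of `N` are at most `y`, then `log N ≤ C y (1 + k) (1 + log log N) ^ κ`. -/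
theorem result (m : ℕ) : ∃ (C : ℝ) (κ : ℕ), 0 < C ∧ ∀ N : ℕ, Odd N → N.Perfect →
    ∀ y : ℝ, 1 ≤ y → (N.primeFactors.filter (fun p : ℕ => y < (p : ℝ))).card ≤ m →
    Real.log N ≤ C * y * (1 + (N.primeFactors.filter (fun p : ℕ => (p : ℝ) ≤ y)).card) *
      (1 + Real.log (Real.log N)) ^ κ := by
  classical
  obtain ⟨κ, C, hC, hmain⟩ := log_le_card m
  refine ⟨2 * C * 3 ^ κ, κ, by positivity, ?_⟩
  intro N hodd hperf y hy hm
  have H := opn_of_perfect hodd hperf
  set L := Real.log (N : ℝ) with hL
  have hL1 : 1 < L := one_lt_log H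
  have hL0 : 0 < L := by linarith
  have hlL : 0 < Real.log L := Real.log_pos hL1
  set Y := max ⌊y⌋₊ 2 with hY
  have hY2 : 2 ≤ Y := le_max_right _ _
  have hY2R : (2 : ℝ) ≤ Y := by exact_mod_cast hY2
  have hYy : (Y : ℝ) ≤ 2 * y := by
    rw [hY, Nat.cast_max]
    refine max_le ?_ (by push_cast; linarith)
    have := Nat.floor_le (show 0 ≤ y by linarith)
    linarith
  have hsub : R N Y ⊆ N.primeFactors.filter (fun p : ℕ => y < (p : ℝ)) := by
    intro p hp
    rw [R, Finset.mem_filter] at hp
    refine Finset.mem_filter.2 ⟨hp.1, ?_⟩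
    have h1 : ¬ p ≤ ⌊y⌋₊ := fun h2 => hp.2 (h2.trans (le_max_left _ _))
    rw [Nat.le_floor_iff (by linarith)] at h1
    exact not_le.1 h1
  have hsubQ : Q N Y ⊆ N.primeFactors.filter (fun p : ℕ => (p : ℝ) ≤ y) := by
    intro p hp
    rw [Q, Finset.mem_filter] at hp
    refine Finset.mem_filter.2 ⟨hp.1, ?_⟩
    have h3 := H.three_le hp.1
    have h1 : p ≤ ⌊y⌋₊ := by
      rcases le_max_iff.1 hp.2 with h | h
      · exact h
      · omega
    exact (Nat.le_floor_iff (by linarith)).1 h1
  set c : ℝ := ((N.primeFactors.filter (fun p : ℕ => (p : ℝ) ≤ y)).card : ℝ) with hc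
  have hc0 : 0 ≤ c := Nat.cast_nonneg _
  have hcQ : ((Q N Y).card : ℝ) ≤ c := by
    rw [hc]
    exact_mod_cast Finset.card_le_card hsubQ
  have hone : (1 : ℝ) ≤ (1 + Real.log L) ^ κ := one_le_pow₀ (by linarith)
  have h3κ : (1 : ℝ) ≤ 3 ^ κ := one_le_pow₀ (by norm_num)
  by_cases hYL : (Y : ℝ) ≤ L
  swap
  · -- `y` is larger than `log N`
    push Not at hYL
    calc L ≤ 2 * y := by linarith
      _ ≤ (2 * y) * (C * 3 ^ κ * (1 + c) * (1 + Real.log L) ^ κ) := by
          apply le_mul_of_one_le_right (by positivity)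
          exact one_le_mul_of_one_le_of_one_le (one_le_mul_of_one_le_of_one_le
            (one_le_mul_of_one_le_of_one_le hC h3κ) (by linarith)) hone
      _ = _ := by ring
  -- the parameters
  set ℓ := Nat.log 2 ⌈2 * L⌉₊ + 1 with hℓ
  have hceil : ⌈2 * L⌉₊ ≠ 0 := (Nat.ceil_pos.2 (by linarith)).ne'
  have hℓ1 : 2 * L ≤ ((2 ^ ℓ : ℕ) : ℝ) := by
    refine (Nat.le_ceil _).trans ?_
    exact_mod_cast (Nat.lt_pow_succ_log_self (by norm_num) ⌈2 * L⌉₊).le
  have hℓ2 : (ℓ : ℝ) ≤ 3 * (1 + Real.log L) := by
    have h1 : ((2 ^ (Nat.log 2 ⌈2 * L⌉₊) : ℕ) : ℝ) ≤ 2 * L + 1 := by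
      have h2 : ((2 ^ (Nat.log 2 ⌈2 * L⌉₊) : ℕ) : ℝ) ≤ ⌈2 * L⌉₊ := by
        exact_mod_cast Nat.pow_log_le_self 2 hceil
      exact h2.trans (Nat.ceil_lt_add_one (by linarith)).le
    push_cast at h1
    have h3 := Real.log_le_log (by positivity) h1
    rw [Real.log_pow] at h3
    have h4 : Real.log (2 * L + 1) ≤ Real.log (3 * L) :=
      Real.log_le_log (by linarith) (by linarith)
    rw [Real.log_mul (by norm_num) hL0.ne'] at h4
    have h5 : Real.log 3 ≤ 1.1 := by
      rw [Real.log_le_iff_le_exp (by norm_num)]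
      have h7 := Real.exp_one_gt_d9
      have h8 : Real.exp 1.1 = Real.exp 1 * Real.exp 0.1 := by rw [← Real.exp_add]; norm_num
      have h9 : (1.105 : ℝ) ≤ Real.exp 0.1 := by
        have := Real.sum_le_exp_of_nonneg (x := 0.1) (by norm_num) 3
        simp [Finset.sum_range_succ, Nat.factorial] at this
        norm_num at this ⊢
        linarith
      rw [h8]
      nlinarith [Real.exp_pos 1]
    have h10 := Real.log_two_gt_d9
    have h11 : ((Nat.log 2 ⌈2 * L⌉₊ : ℕ) : ℝ) * 0.69 ≤ 1.1 + Real.log L := by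
      have : ((Nat.log 2 ⌈2 * L⌉₊ : ℕ) : ℝ) * 0.69 ≤
          ((Nat.log 2 ⌈2 * L⌉₊ : ℕ) : ℝ) * Real.log 2 :=
        mul_le_mul_of_nonneg_left (by linarith) (Nat.cast_nonneg _)
      linarith
    rw [hℓ]
    push_cast
    linarith
  have hYℓ : Y ≤ 2 ^ ℓ := by
    have : (Y : ℝ) ≤ ((2 ^ ℓ : ℕ) : ℝ) := by linarith
    exact_mod_cast this
  have hn4 : ∀ q ∈ N.primeFactors, N.factorization q + 1 ≤ 2 ^ (4 * ℓ) := by
    intro q hq
    have h1 : ((N.factorization q + 1 : ℕ) : ℝ) ≤ ((2 ^ ℓ : ℕ) : ℝ) := (exp_le H hq).trans hℓ1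
    have h2 : N.factorization q + 1 ≤ 2 ^ ℓ := by exact_mod_cast h1
    exact h2.trans (Nat.pow_le_pow_right (by norm_num) (by omega))
  have hℓpos : 1 ≤ ℓ := by rw [hℓ]; omega
  have h1 := hmain N Y ℓ H hY2 ((Finset.card_le_card hsub).trans hm) hℓpos hYℓ hn4
  calc L ≤ C * (ℓ : ℝ) ^ κ * ((Y : ℝ) * (1 + (Q N Y).card)) := h1
    _ ≤ C * (3 * (1 + Real.log L)) ^ κ * ((2 * y) * (1 + c)) := by
        have h2 : (ℓ : ℝ) ^ κ ≤ (3 * (1 + Real.log L)) ^ κ :=
          pow_le_pow_left₀ (Nat.cast_nonneg _) hℓ2 _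
        have hC0 : 0 ≤ C := by linarith
        have h3 : (Y : ℝ) * (1 + (Q N Y).card) ≤ (2 * y) * (1 + c) :=
          mul_le_mul hYy (by linarith) (by positivity) (by positivity)
        exact mul_le_mul (mul_le_mul_of_nonneg_left h2 hC0) h3 (by positivity) (by positivity)
    _ = _ := by rw [mul_pow]; ring

end Pool.Agent.Results.MP_f02ea4_nt.MthLargestOmega
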