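import Mathlib
import Pool.Agent.Helper112.Arith
import Pool.Agent.W132.OPN.Asymp
import Pool.Agent.Run7.h541.CoreK

set_option autoImplicit false

/-!
# The largest prime factor and the number of prime factors of an odd perfect number

Let `N` be an odd perfect number, `y ≥ 1`, let `D` be the part of `N` composed of the primes
`p > y`, and let `k` be the number of the prime factors `≤ y` of `N`.  Then
`log N ≤ C (y √(1 + k) (log N) ^ ε + (1 + log log N) ^ 33 log D)`.  If `P` is the largest prime factor of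
`N`, then `D = 1` for `y = P`; so `P √ω(N)` is at least a constant times `(log N) ^ (1 - ε)`, and as
`ω(N) ≤ P`, `P` is at least a constant times `(log N) ^ (2 / 3 - ε)`.  (The exponent `1 / 2` is
classical: a prime `q ∣ N` has an exponent smaller than the largest prime factor of `N`.)

Proof.  Write `σ_q = σ (q ^ e_q)` and think of `v_r(σ_q) log r` as a flow from `q` to `r`.  The outflow of
`q` is about `e_q log q`, and so is the inflow, since `∏ σ_q = 2 N`.  Let `q, r ≤ y`.

* Each `r` receives a large amount from one `q = t(r)` only (`NonTop.nontop`): the primes `q ≤ y` for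
  which a high power `r ^ w` divides `q ^ (r - 1) - 1` lie in the subgroup of order `r - 1` modulo `r ^ w`,
  and the monomials in these primes which are smaller than `r ^ w` are distinct elements of it.
* The radical of `σ_q` is at most `exp (y ^ (1 / 2 + ε))`, since the primes `r ≤ y` with `ord_r q = d` are
  `≡ 1` modulo `d` and their product divides `q ^ d - 1` (`Rad.rad_part`).  So the total flow between the
  `k` small primes outside the edges `t(r) → r` is at most `y √k` times a small factor (`CoreK`).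
* At most a fraction `1 - 1 / (log log N) ^ 16` of the outflow of `q` goes to a single `r`
  (`Loss.loss`).  This is a lower bound for the linear form `n log q - w log r - log B` in three
  logarithms which is linear in `log B`; it is reduced to two logarithms of rational numbers
  (`LFL.lfl_rat`, interpolation determinants) by Dirichlet's theorem applied to `n / w`.
* Hence the entropy `∑ x_q log x_q` of the masses `x_q = log σ_q` decreases along the edges `t(r) → r`
  unless the total mass is at most `(log log N) ^ 33` times the other flows (`Entropy.entropy`).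
-/

namespace Pool.Agent.Results.MP_f02ea4_nt.RoughPartOmega

open Finset Pool.Agent.W132.OPN Pool.Agent.Run7.h541

/-- powers of logarithms -/
lemma log_pow_le (δ : ℝ) (hδ : 0 < δ) : ∃ C : ℝ, 0 < C ∧ ∀ L : ℝ, 1 ≤ L →
    (1 + Real.log L) ^ 33 ≤ C * L ^ δ := by
  have hd : 0 < δ / 33 := by positivity
  refine ⟨(1 + 33 / δ) ^ 33, by positivity, ?_⟩
  intro L hL
  have hL0 : 0 < L := by linarith
  have h1 : Real.log L ≤ L ^ (δ / 33) / (δ / 33) := Real.log_le_rpow_div hL0.le hd
  have h2 : (1 : ℝ) ≤ L ^ (δ / 33) := Real.one_le_rpow hL hd.le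
  have h3 : 1 + Real.log L ≤ (1 + 33 / δ) * L ^ (δ / 33) := by
    have h4 : L ^ (δ / 33) / (δ / 33) = 33 / δ * L ^ (δ / 33) := by
      field_simp
    rw [h4] at h1
    linarith
  have h5 : 0 ≤ 1 + Real.log L := by
    have := Real.log_nonneg hL
    linarith
  calc (1 + Real.log L) ^ 33 ≤ ((1 + 33 / δ) * L ^ (δ / 33)) ^ 33 := pow_le_pow_left₀ h5 h3 33
    _ = (1 + 33 / δ) ^ 33 * L ^ δ := by
        rw [mul_pow, ← Real.rpow_natCast (L ^ (δ / 33)) 33, ← Real.rpow_mul hL0.le]
        congr 2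
        push_cast
        ring

/-- **Main theorem.**  Let `ε > 0`.  There is `C` such that for all odd perfect numbers `N`, all real
`y ≥ 1`, the part `D` of `N` composed of the primes larger than `y` and the number `k` of the prime
factors `≤ y` of `N`:
`log N ≤ C (y √(1 + k) (log N) ^ ε + (1 + log log N) ^ 33 log D)`.
If `y` is the largest prime factor of `N`, then `D = 1`, `k = ω(N)` and
`log N ≤ C y √(1 + ω(N)) (log N) ^ ε`. -/
theorem result (ε : ℝ) (hε : 0 < ε) : ∃ C : ℝ, 0 < C ∧ ∀ N : ℕ, Odd N → N.Perfect →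
    ∀ y : ℝ, 1 ≤ y → ∀ D : ℕ,
    D = ∏ p ∈ N.primeFactors.filter (fun p : ℕ => y < (p : ℝ)), p ^ N.factorization p →
    Real.log N ≤ C * (y * Real.sqrt (1 + (N.primeFactors.filter (fun p : ℕ => (p : ℝ) ≤ y)).card) *
      Real.log N ^ ε + (1 + Real.log (Real.log N)) ^ 33 * Real.log D) := by
  classical
  obtain ⟨C₁, hC₁, hdiv⟩ := Pool.Agent.Helper112.divisor_bound (ε / 2) (by positivity)
  obtain ⟨C₂, hC₂, hlp⟩ := log_pow_le (ε / 2) (by positivity)
  obtain ⟨C₃, hC₃⟩ : ∃ C₃ : ℝ, C₃ = (C₁ + 1) * 2 ^ (ε / 2) := ⟨_, rfl⟩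
  have h2ε : (0 : ℝ) < 2 ^ (ε / 2) := by positivity
  have hC₃0 : 0 < C₃ := by rw [hC₃]; positivity
  obtain ⟨K, hK⟩ : ∃ K : ℝ, K = 10 ^ 64 * 3 ^ 33 := ⟨_, rfl⟩
  have hK0 : 0 < K := by rw [hK]; positivity
  refine ⟨3 + K * (C₃ * C₂ * 6) + K, by positivity, ?_⟩
  intro N hodd hperf y hy D hD
  have H := opn_of_perfect hodd hperf
  set L := Real.log (N : ℝ) with hL
  have hL1 : 1 < L := one_lt_log H
  have hL0 : 0 < L := by linarith
  have hlL : 0 < Real.log L := Real.log_pos hL1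
  have hD1 : 1 ≤ D := by
    rw [hD]
    refine Nat.pos_of_ne_zero (Finset.prod_ne_zero_iff.2 (fun p hp => ?_))
    have := H.three_le (Finset.mem_filter.1 hp).1
    positivity
  have hlD : 0 ≤ Real.log D := Real.log_natCast_nonneg D
  have hLε : 1 ≤ L ^ ε := Real.one_le_rpow hL1.le hε.le
  set k : ℝ := ((N.primeFactors.filter (fun p : ℕ => (p : ℝ) ≤ y)).card : ℝ) with hk
  have hk0 : 0 ≤ k := Nat.cast_nonneg _
  obtain ⟨Z, hZ⟩ : ∃ Z : ℝ, Z = y * Real.sqrt (1 + k) := ⟨_, rfl⟩
  have hsk : 1 ≤ Real.sqrt (1 + k) := by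
    rw [Real.one_le_sqrt]; linarith
  have hyZ : y ≤ Z := by
    rw [hZ]
    exact le_mul_of_one_le_right (by linarith) hsk
  have hZ0 : 0 ≤ Z := by linarith
  rw [← hZ]
  set A := Z * L ^ ε with hA
  have hA0 : 0 ≤ A := by positivity
  set G := (1 + Real.log L) ^ 33 * Real.log D with hG
  have hG0 : 0 ≤ G := by positivity
  -- the cutoff
  set Y := max ⌊y⌋₊ 3 with hY
  have hY3 : 3 ≤ Y := le_max_right _ _
  have hYy : (Y : ℝ) ≤ 3 * y := by
    rw [hY, Nat.cast_max]
    refine max_le ?_ (by push_cast; linarith)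
    have := Nat.floor_le (show 0 ≤ y by linarith)
    linarith
  by_cases hYL : (Y : ℝ) ≤ L
  swap
  · push Not at hYL
    have h1 : L ≤ 3 * A := by
      have h2 : y ≤ A := by
        calc y ≤ Z := hyZ
          _ ≤ A := le_mul_of_one_le_right hZ0 hLε
      linarith
    have h3 : (3 + K * (C₃ * C₂ * 6) + K) * (A + G) =
        3 * A + (3 * G + (K * (C₃ * C₂ * 6) + K) * (A + G)) := by ring
    rw [h3]
    have h4 : 0 ≤ 3 * G + (K * (C₃ * C₂ * 6) + K) * (A + G) := by positivity
    linarith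
  -- the parameters
  set ℓ := Nat.log 2 ⌈2 * L⌉₊ + 1 with hℓ
  have hceil : ⌈2 * L⌉₊ ≠ 0 := (Nat.ceil_pos.2 (by linarith)).ne'
  have hℓ1 : 2 * L ≤ ((2 ^ ℓ : ℕ) : ℝ) := by
    refine (Nat.le_ceil _).trans ?_
    exact_mod_cast (Nat.lt_pow_succ_log_self (by norm_num) ⌈2 * L⌉₊).le
  have hℓ2 : (ℓ : ℝ) ≤ 3 * (1 + Real.log L) := by
    have h1 : ((2 ^ (Nat.log 2 ⌈2 * L⌉₊) : ℕ) : ℝ) ≤ 2 * L + 1 := by
      have h2 : ((2 ^ (Nat.log 2 ⌈2 * L⌉₊) : ℕ) : ℝ) ≤ ⌈2 * L⌉₊ := by
        exact_mod_cast Nat.pow_log_le_self 2 hceil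
      exact h2.trans (Nat.ceil_lt_add_one (by linarith)).le
    push_cast at h1
    have h3 := Real.log_le_log (by positivity) h1
    rw [Real.log_pow] at h3
    have h4 : Real.log (2 * L + 1) ≤ Real.log (3 * L) :=
      Real.log_le_log (by linarith) (by linarith)
    rw [Real.log_mul (by norm_num) hL0.ne'] at h4
    have h5 : Real.log 3 ≤ 1.1 := by
      rw [Real.log_le_iff_le_exp (by norm_num)]
      have h6 : (1 : ℝ) + 1.1 + 1.1 ^ 2 / 2 + 1.1 ^ 3 / 6 ≤ Real.exp 1.1 := by
        have := Real.sum_le_exp_of_nonneg (x := 1.1) (by norm_num) 4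
        simp [Finset.sum_range_succ, Nat.factorial] at this
        norm_num at this ⊢
        linarith
      norm_num at h6
      have h7 := Real.exp_one_gt_d9
      have h8 : Real.exp 1.1 = Real.exp 1 * Real.exp 0.1 := by rw [← Real.exp_add]; norm_num
      have h9 : (1.105 : ℝ) ≤ Real.exp 0.1 := by
        have := Real.sum_le_exp_of_nonneg (x := 0.1) (by norm_num) 3
        simp [Finset.sum_range_succ, Nat.factorial] at this
        norm_num at this ⊢
        linarith
      rw [h8]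
      nlinarith [Real.exp_pos 1]
    have h10 := Real.log_two_gt_d9
    have h11 : ((Nat.log 2 ⌈2 * L⌉₊ : ℕ) : ℝ) * 0.69 ≤ 1.1 + Real.log L := by
      have : ((Nat.log 2 ⌈2 * L⌉₊ : ℕ) : ℝ) * 0.69 ≤
          ((Nat.log 2 ⌈2 * L⌉₊ : ℕ) : ℝ) * Real.log 2 :=
        mul_le_mul_of_nonneg_left (by linarith) (Nat.cast_nonneg _)
      linarith
    rw [hℓ]
    push_cast
    linarith
  have hn : ∀ q ∈ N.primeFactors, ((N.factorization q + 1 : ℕ) : ℝ) ≤ 2 * L := fun q hq =>
    exp_le H hq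
  have hYℓ : Y ≤ 2 ^ ℓ := by
    have : (Y : ℝ) ≤ ((2 ^ ℓ : ℕ) : ℝ) := by linarith
    exact_mod_cast this
  have hn4 : ∀ q ∈ N.primeFactors, N.factorization q + 1 ≤ 2 ^ (4 * ℓ) := by
    intro q hq
    have h1 : ((N.factorization q + 1 : ℕ) : ℝ) ≤ ((2 ^ ℓ : ℕ) : ℝ) := (hn q hq).trans hℓ1
    have h2 : N.factorization q + 1 ≤ 2 ^ ℓ := by exact_mod_cast h1
    exact h2.trans (Nat.pow_le_pow_right (by norm_num) (by omega))
  set T : ℝ := C₃ * L ^ (ε / 2) with hT
  have hLε2 : 1 ≤ L ^ (ε / 2) := Real.one_le_rpow hL1.le (by positivity)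
  have h2ε1 : (1 : ℝ) ≤ 2 ^ (ε / 2) := Real.one_le_rpow (by norm_num) (by positivity)
  have hT1 : 1 ≤ T := by
    rw [hT, hC₃]
    have h1 : 1 ≤ (C₁ + 1) * 2 ^ (ε / 2) := by nlinarith
    nlinarith
  set τ := ⌊T⌋₊ with hτ
  have hτ1 : 1 ≤ τ := by
    rw [hτ, Nat.one_le_floor_iff]
    exact hT1
  have hτT : (τ : ℝ) ≤ T := Nat.floor_le (by linarith)
  have hτb : ∀ q ∈ N.primeFactors, (N.factorization q + 1).divisors.card ≤ τ := by
    intro q hq
    rw [hτ]
    refine Nat.le_floor ?_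
    refine (hdiv (N.factorization q + 1) (by omega)).trans ?_
    have h1 : (((N.factorization q + 1 : ℕ) : ℝ)) ^ (ε / 2) ≤ (2 * L) ^ (ε / 2) :=
      Real.rpow_le_rpow (Nat.cast_nonneg _) (hn q hq) (by positivity)
    rw [Real.mul_rpow (by norm_num) hL0.le] at h1
    calc C₁ * (((N.factorization q + 1 : ℕ) : ℝ)) ^ (ε / 2)
        ≤ C₁ * (2 ^ (ε / 2) * L ^ (ε / 2)) := mul_le_mul_of_nonneg_left h1 hC₁.le
      _ ≤ (C₁ + 1) * (2 ^ (ε / 2) * L ^ (ε / 2)) := by
          apply mul_le_mul_of_nonneg_right _ (by positivity)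
          linarith
      _ = T := by rw [hT, hC₃]; ring
  have hcore := coreK (τ := τ) H hY3 hYℓ hn4 hτ1 hτb
  -- the large primes
  have hLD : ∑ q ∈ R N Y, (N.factorization q : ℝ) * Real.log q ≤ Real.log D := by
    have h1 : Real.log D = ∑ q ∈ N.primeFactors.filter (fun p : ℕ => y < (p : ℝ)),
        (N.factorization q : ℝ) * Real.log q := by
      rw [hD]
      push_cast
      rw [Real.log_prod]
      · refine Finset.sum_congr rfl (fun q _ => ?_)
        rw [Real.log_pow]
      · intro q hq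
        have := H.three_le (Finset.mem_filter.1 hq).1
        have : (q : ℝ) ≠ 0 := by exact_mod_cast (by omega : q ≠ 0)
        positivity
    rw [h1]
    refine Finset.sum_le_sum_of_subset_of_nonneg ?_ (fun q _ _ =>
      mul_nonneg (Nat.cast_nonneg _) (Real.log_natCast_nonneg _))
    intro p hp
    rw [R, Finset.mem_filter] at hp
    refine Finset.mem_filter.2 ⟨hp.1, ?_⟩
    have h1 : ¬ p ≤ ⌊y⌋₊ := fun h2 => hp.2 (h2.trans (le_max_left _ _))
    rw [Nat.le_floor_iff (by linarith)] at h1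
    exact not_le.1 h1
  -- the number of small primes
  have hcardQ : ((Q N Y).card : ℝ) ≤ 1 + k := by
    have h1 : Q N Y ⊆ insert 3 (N.primeFactors.filter (fun p : ℕ => (p : ℝ) ≤ y)) := by
      intro p hp
      rw [Q, Finset.mem_filter] at hp
      have h3 := H.three_le hp.1
      rcases le_max_iff.1 hp.2 with h | h
      · exact Finset.mem_insert_of_mem (Finset.mem_filter.2 ⟨hp.1,
          (Nat.le_floor_iff (by linarith)).1 h⟩)
      · have : p = 3 := by omega
        rw [this]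
        exact Finset.mem_insert_self _ _
    have h2 := (Finset.card_le_card h1).trans (Finset.card_insert_le _ _)
    have h3 : ((Q N Y).card : ℝ) ≤
        (((N.primeFactors.filter (fun p : ℕ => (p : ℝ) ≤ y)).card + 1 : ℕ) : ℝ) := by
      exact_mod_cast h2
    push_cast at h3
    linarith
  have hYY : (Y : ℝ) * Real.sqrt (Q N Y).card ≤ 6 * Z := by
    have h1 : Real.sqrt (Q N Y).card ≤ Real.sqrt (1 + k) := Real.sqrt_le_sqrt hcardQ
    calc (Y : ℝ) * Real.sqrt (Q N Y).card ≤ (3 * y) * Real.sqrt (1 + k) :=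
          mul_le_mul hYy h1 (Real.sqrt_nonneg _) (by linarith)
      _ = 3 * Z := by rw [hZ]; ring
      _ ≤ 6 * Z := by linarith
  have hℓ33 : (ℓ : ℝ) ^ 33 ≤ 3 ^ 33 * (1 + Real.log L) ^ 33 := by
    rw [← mul_pow]
    exact pow_le_pow_left₀ (Nat.cast_nonneg _) hℓ2 33
  have hlog33 := hlp L hL1.le
  have h33 : 0 ≤ (1 + Real.log L) ^ 33 := by positivity
  have hYY0 : 0 ≤ (Y : ℝ) * Real.sqrt (Q N Y).card := by positivity
  have hsum0 : 0 ≤ ∑ q ∈ R N Y, (N.factorization q : ℝ) * Real.log q :=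
    Finset.sum_nonneg (fun q _ => mul_nonneg (Nat.cast_nonneg _) (Real.log_natCast_nonneg _))
  have hLLε : L ^ (ε / 2) * L ^ (ε / 2) = L ^ ε := by
    rw [← Real.rpow_add hL0]; congr 1; ring
  have hmid : L ≤ K * ((1 + Real.log L) ^ 33 * (T * (6 * Z) + Real.log D)) := by
    calc L ≤ 10 ^ 64 * (ℓ : ℝ) ^ 33 * (τ * (Y * Real.sqrt (Q N Y).card) +
          ∑ q ∈ R N Y, (N.factorization q : ℝ) * Real.log q) := hcore
      _ ≤ 10 ^ 64 * (3 ^ 33 * (1 + Real.log L) ^ 33) *
          (T * (6 * Z) + Real.log D) := by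
          have h1 : (τ : ℝ) * (Y * Real.sqrt (Q N Y).card) ≤ T * (6 * Z) :=
            mul_le_mul hτT hYY hYY0 (by linarith)
          have h2 : 10 ^ 64 * (ℓ : ℝ) ^ 33 ≤ 10 ^ 64 * (3 ^ 33 * (1 + Real.log L) ^ 33) :=
            mul_le_mul_of_nonneg_left hℓ33 (by norm_num)
          exact mul_le_mul h2 (add_le_add h1 hLD) (by positivity) (by positivity)
      _ = _ := by rw [hK]; ring
  have hfirst : (1 + Real.log L) ^ 33 * (T * (6 * Z)) ≤ C₃ * C₂ * 6 * A := by
    calc (1 + Real.log L) ^ 33 * (T * (6 * Z))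
        ≤ (C₂ * L ^ (ε / 2)) * (T * (6 * Z)) :=
          mul_le_mul_of_nonneg_right hlog33 (by positivity)
      _ = C₃ * C₂ * 6 * (Z * (L ^ (ε / 2) * L ^ (ε / 2))) := by rw [hT]; ring
      _ = C₃ * C₂ * 6 * A := by rw [hLLε]
  calc L ≤ K * ((1 + Real.log L) ^ 33 * (T * (6 * Z) + Real.log D)) := hmid
    _ = K * ((1 + Real.log L) ^ 33 * (T * (6 * Z))) + K * G := by rw [hG]; ring
    _ ≤ K * (C₃ * C₂ * 6 * A) + K * G := by
        have := mul_le_mul_of_nonneg_left hfirst hK0.le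
        linarith
    _ ≤ (3 + K * (C₃ * C₂ * 6) + K) * (A + G) := by
        have h1 : (3 + K * (C₃ * C₂ * 6) + K) * (A + G) = K * (C₃ * C₂ * 6 * A) + K * G +
          (3 * (A + G) + K * (C₃ * C₂ * 6) * G + K * A) := by ring
        rw [h1]
        have h2 : 0 ≤ 3 * (A + G) + K * (C₃ * C₂ * 6) * G + K * A := by positivity
        linarith

end Pool.Agent.Results.MP_f02ea4_nt.RoughPartOmega
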