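import Mathlib
import Pool.Agent.Helper112.Arith
import Pool.Agent.W132.OPN.Asymp
import Pool.Agent.Run7.h541.SecondMain

set_option autoImplicit false

/-!
# The second largest prime factor of an odd perfect number

For every `ε > 0` there is `c > 0` such that each odd perfect number `N` has two different prime factors
which are both at least `c (log N) ^ (2 / 3 - ε)`.

Proof.  Let `s` be the largest and `y` the second largest prime factor of `N`, write `e_q` for the exponent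
of `q` in `N`, `n_q = e_q + 1`, `σ_q = σ (q ^ e_q)`, and `ℓ` for a bound for all `log log`'s.  By
`coreR` it is enough to bound `M = e_s log s` by `y ^ (3 / 2)` up to powers of `ℓ` and of the largest
number of divisors of an `n_q`.

* If `n_q` is much larger than `y` for some `q ≤ y`, then `s` divides `Φ_{n_q}(q)`, and all
  divisors of `n_q` other than `1` are larger than a high power of `ℓ` (`bad_struct`).  Hence `log Φ_{n_q}(q)` is
  `(φ(n_q) - μ(n_q)) log q + μ(n_q) log (q - 1)` up to an error smaller than `exp (- ℓ ^ κ)` (`log_cyc`), and it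
  is also `log u + w log s` with `u ∣ n_q`.  For two such primes `q` one eliminates `log s` and finds a linear
  form in six logarithms of *small* numbers, which is too small (`two_cyc`, Baker's method).  So
  there is at most one such `q` (`two_bad`).
* If `q ≤ y` and `q ^ v` divides `s ^ d - 1` with `d ∣ n_s` and `v ≤ n_q`, then `q ^ n_q = 1 + t s ^ w` with a
  small `t`, and the numbers `s ^ a t ^ b < q ^ v` are different elements of the group of order `2 d`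
  modulo `q ^ v`; this bounds the part of `log σ_s` which belongs to `q` by `M / 4 + O(y)` (`gap_s`).
* If `s ∣ σ_q` for some `q ≤ y` with `n_q = O(y)`, then `log s` is `O(y)`.  The primes `q ≤ y` with
  `ord_q s = d` contribute at most `d log s` to `log σ_s`, and also at most `(y / d)` times `O(y)`, since
  they are `≡ 1` modulo `d`; so all `q` with `n_q = O(y)` together contribute `O(y ^ (3 / 2))`
  (`outflow_good`), and `M / 4 + O(y)` comes from the exceptional prime.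
* Otherwise the whole component `s ^ e_s` divides a single `σ_q`, `q ≤ y`, and the inflow of `q`, i.e. the sum
  of `v_q(σ_r) log q` over `r`, is `M / 4 + O(y)`.
-/

namespace Pool.Agent.Results.MP_f02ea4_nt.SecondLargestTwoThirds

open Finset Pool.Agent.W132.OPN Pool.Agent.Run7.h541

/-- powers of logarithms -/
lemma log_pow_le (k : ℕ) (hk : 0 < k) (δ : ℝ) (hδ : 0 < δ) : ∃ C : ℝ, 0 < C ∧ ∀ L : ℝ, 1 ≤ L →
    (1 + Real.log L) ^ k ≤ C * L ^ δ := by
  have hkR : (0 : ℝ) < k := by exact_mod_cast hk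
  have hd : 0 < δ / k := by positivity
  refine ⟨(1 + k / δ) ^ k, by positivity, ?_⟩
  intro L hL
  have hL0 : 0 < L := by linarith
  have h1 : Real.log L ≤ L ^ (δ / k) / (δ / k) := Real.log_le_rpow_div hL0.le hd
  have h2 : (1 : ℝ) ≤ L ^ (δ / k) := Real.one_le_rpow hL hd.le
  have h3 : 1 + Real.log L ≤ (1 + k / δ) * L ^ (δ / k) := by
    have h4 : L ^ (δ / k) / (δ / k) = k / δ * L ^ (δ / k) := by
      field_simp
    rw [h4] at h1
    linarith
  have h5 : 0 ≤ 1 + Real.log L := by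
    have := Real.log_nonneg hL
    linarith
  calc (1 + Real.log L) ^ k ≤ ((1 + k / δ) * L ^ (δ / k)) ^ k := pow_le_pow_left₀ h5 h3 k
    _ = (1 + k / δ) ^ k * L ^ δ := by
        rw [mul_pow, ← Real.rpow_natCast (L ^ (δ / k)) k, ← Real.rpow_mul hL0.le]
        congr 2
        field_simp

/-- the two largest prime factors -/
lemma exists_two {N : ℕ} (H : Opn N) : ∃ s ∈ N.primeFactors, ∃ y ∈ N.primeFactors, y < s ∧
    R N y = {s} := by
  classical
  have hne : N.primeFactors.Nonempty := by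
    rw [Finset.nonempty_iff_ne_empty]
    intro h0
    have := H.perf
    rw [h0, Finset.prod_empty] at this
    omega
  obtain ⟨s, hs, hmax⟩ := Finset.exists_max_image N.primeFactors id hne
  have hne2 : (N.primeFactors.erase s).Nonempty := by
    rw [Finset.nonempty_iff_ne_empty]
    intro h0
    have h1 : N.primeFactors = {s} := by
      rw [← Finset.insert_erase hs, h0]
      rfl
    have h2 := cons H hs
    rw [h1, Finset.sum_singleton, val_self hs] at h2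
    have := Opn.fac_pos hs
    omega
  obtain ⟨y, hy, hmaxy⟩ := Finset.exists_max_image (N.primeFactors.erase s) id hne2
  obtain ⟨hys, hyN⟩ := Finset.mem_erase.1 hy
  have hlt : y < s := lt_of_le_of_ne (hmax y hyN) hys
  refine ⟨s, hs, y, hyN, hlt, ?_⟩
  ext p
  rw [R, Finset.mem_filter, Finset.mem_singleton]
  constructor
  · rintro ⟨hp, hpy⟩
    by_contra hne'
    exact hpy (hmaxy p (Finset.mem_erase.2 ⟨hne', hp⟩))
  · rintro rfl
    exact ⟨hs, not_le.2 hlt⟩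

/-- **Main theorem.**  Let `ε > 0`.  There is `c > 0` such that every odd perfect number `N` has two prime
factors `p < q` with `p ≥ c (log N) ^ (2 / 3 - ε)`. -/
theorem result (ε : ℝ) (hε : 0 < ε) : ∃ c : ℝ, 0 < c ∧ ∀ N : ℕ, Odd N → N.Perfect →
    ∃ p ∈ N.primeFactors, ∃ q ∈ N.primeFactors, p < q ∧
      c * Real.log N ^ (2 / 3 - ε) ≤ (p : ℝ) := by
  classical
  obtain ⟨κ, C, hκ, hC, hlarge⟩ := large_part
  obtain ⟨C₁, hC₁, hdiv⟩ := Pool.Agent.Helper112.divisor_bound (3 * ε / 8) (by positivity)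
  obtain ⟨C₂, hC₂, hlp⟩ := log_pow_le (33 + κ) (by omega) (3 * ε / 4) (by positivity)
  obtain ⟨C₃, hC₃⟩ : ∃ C₃ : ℝ, C₃ = (C₁ + 1) * 2 ^ (3 * ε / 8) := ⟨_, rfl⟩
  have h2ε : (0 : ℝ) < 2 ^ (3 * ε / 8) := by positivity
  have hC₃0 : 0 < C₃ := by rw [hC₃]; positivity
  have hCR : (1 : ℝ) ≤ C := by exact_mod_cast hC
  obtain ⟨K, hK⟩ : ∃ K : ℝ, K = 10 ^ 64 * 3 ^ (33 + κ) * (1 + C) * C₂ * C₃ ^ 2 := ⟨_, rfl⟩
  have hK0 : 0 < K := by rw [hK]; positivity
  refine ⟨min 1 ((1 / K) ^ (2 / 3 : ℝ)), lt_min one_pos (by positivity), ?_⟩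
  intro N hodd hperf
  have H := opn_of_perfect hodd hperf
  obtain ⟨s, hsN, y, hyN, hys, hR⟩ := exists_two H
  refine ⟨y, hyN, s, hsN, hys, ?_⟩
  have hy3 : 3 ≤ y := H.three_le hyN
  have hyR : (3 : ℝ) ≤ y := by exact_mod_cast hy3
  have hy0 : (0 : ℝ) < y := by linarith
  set L := Real.log (N : ℝ) with hL
  have hL1 : 1 < L := one_lt_log H
  have hL0 : 0 < L := by linarith
  have hlL : 0 < Real.log L := Real.log_pos hL1
  have hLpos : 0 < L ^ (2 / 3 - ε) := by positivity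
  by_cases hYL : (y : ℝ) ≤ L
  swap
  · push Not at hYL
    calc min 1 ((1 / K) ^ (2 / 3 : ℝ)) * L ^ (2 / 3 - ε) ≤ 1 * L ^ (2 / 3 - ε) :=
          mul_le_mul_of_nonneg_right (min_le_left _ _) hLpos.le
      _ = L ^ (2 / 3 - ε) := one_mul _
      _ ≤ L ^ (1 : ℝ) := Real.rpow_le_rpow_of_exponent_le hL1.le (by linarith)
      _ = L := Real.rpow_one L
      _ ≤ y := hYL.le
  -- the parameters
  set ℓ := Nat.log 2 ⌈2 * L⌉₊ + 1 with hℓ
  have hceil : ⌈2 * L⌉₊ ≠ 0 := (Nat.ceil_pos.2 (by linarith)).ne'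
  have hℓ1 : 2 * L ≤ ((2 ^ ℓ : ℕ) : ℝ) := by
    refine (Nat.le_ceil _).trans ?_
    exact_mod_cast (Nat.lt_pow_succ_log_self (by norm_num) ⌈2 * L⌉₊).le
  have hℓ2 : (ℓ : ℝ) ≤ 3 * (1 + Real.log L) := by
    have h1 : ((2 ^ (Nat.log 2 ⌈2 * L⌉₊) : ℕ) : ℝ) ≤ 2 * L + 1 := by
      have h2 : ((2 ^ (Nat.log 2 ⌈2 * L⌉₊) : ℕ) : ℝ) ≤ ⌈2 * L⌉₊ := by
        exact_mod_cast Nat.pow_log_le_self 2 hceil
      exact h2.trans (Nat.ceil_lt_add_one (by linarith)).le
    push_cast at h1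
    have h3 := Real.log_le_log (by positivity) h1
    rw [Real.log_pow] at h3
    have h4 : Real.log (2 * L + 1) ≤ Real.log (3 * L) :=
      Real.log_le_log (by linarith) (by linarith)
    rw [Real.log_mul (by norm_num) hL0.ne'] at h4
    have h5 : Real.log 3 ≤ 1.1 := by
      rw [Real.log_le_iff_le_exp (by norm_num)]
      have h7 := Real.exp_one_gt_d9
      have h8 : Real.exp 1.1 = Real.exp 1 * Real.exp 0.1 := by rw [← Real.exp_add]; norm_num
      have h9 : (1.105 : ℝ) ≤ Real.exp 0.1 := by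
        have := Real.sum_le_exp_of_nonneg (x := 0.1) (by norm_num) 3
        simp [Finset.sum_range_succ, Nat.factorial] at this
        norm_num at this ⊢
        linarith
      rw [h8]
      nlinarith [Real.exp_pos 1]
    have h10 := Real.log_two_gt_d9
    have h11 : ((Nat.log 2 ⌈2 * L⌉₊ : ℕ) : ℝ) * 0.69 ≤ 1.1 + Real.log L := by
      have : ((Nat.log 2 ⌈2 * L⌉₊ : ℕ) : ℝ) * 0.69 ≤
          ((Nat.log 2 ⌈2 * L⌉₊ : ℕ) : ℝ) * Real.log 2 :=
        mul_le_mul_of_nonneg_left (by linarith) (Nat.cast_nonneg _)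
      linarith
    rw [hℓ]
    push_cast
    linarith
  have hn : ∀ q ∈ N.primeFactors, ((N.factorization q + 1 : ℕ) : ℝ) ≤ 2 * L := fun q hq =>
    exp_le H hq
  have hyℓ : y ≤ 2 ^ ℓ := by
    have : (y : ℝ) ≤ ((2 ^ ℓ : ℕ) : ℝ) := by linarith
    exact_mod_cast this
  have hn4 : ∀ q ∈ N.primeFactors, N.factorization q + 1 ≤ 2 ^ (4 * ℓ) := by
    intro q hq
    have h1 : ((N.factorization q + 1 : ℕ) : ℝ) ≤ ((2 ^ ℓ : ℕ) : ℝ) := (hn q hq).trans hℓ1
    have h2 : N.factorization q + 1 ≤ 2 ^ ℓ := by exact_mod_cast h1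
    exact h2.trans (Nat.pow_le_pow_right (by norm_num) (by omega))
  set T : ℝ := C₃ * L ^ (3 * ε / 8) with hT
  have hLε2 : 1 ≤ L ^ (3 * ε / 8) := Real.one_le_rpow hL1.le (by positivity)
  have h2ε1 : (1 : ℝ) ≤ 2 ^ (3 * ε / 8) := Real.one_le_rpow (by norm_num) (by positivity)
  have hT1 : 1 ≤ T := by
    rw [hT, hC₃]
    have h1 : 1 ≤ (C₁ + 1) * 2 ^ (3 * ε / 8) := by nlinarith
    nlinarith
  set τ := ⌊T⌋₊ with hτ
  have hτ1 : 1 ≤ τ := by
    rw [hτ, Nat.one_le_floor_iff]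
    exact hT1
  have hτT : (τ : ℝ) ≤ T := Nat.floor_le (by linarith)
  have hτ1R : (1 : ℝ) ≤ τ := by exact_mod_cast hτ1
  have hτb : ∀ q ∈ N.primeFactors, (N.factorization q + 1).divisors.card ≤ τ := by
    intro q hq
    rw [hτ]
    refine Nat.le_floor ?_
    refine (hdiv (N.factorization q + 1) (by omega)).trans ?_
    have h1 : (((N.factorization q + 1 : ℕ) : ℝ)) ^ (3 * ε / 8) ≤ (2 * L) ^ (3 * ε / 8) :=
      Real.rpow_le_rpow (Nat.cast_nonneg _) (hn q hq) (by positivity)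
    rw [Real.mul_rpow (by norm_num) hL0.le] at h1
    calc C₁ * (((N.factorization q + 1 : ℕ) : ℝ)) ^ (3 * ε / 8)
        ≤ C₁ * (2 ^ (3 * ε / 8) * L ^ (3 * ε / 8)) := mul_le_mul_of_nonneg_left h1 hC₁.le
      _ ≤ (C₁ + 1) * (2 ^ (3 * ε / 8) * L ^ (3 * ε / 8)) := by
          apply mul_le_mul_of_nonneg_right _ (by positivity)
          linarith
      _ = T := by rw [hT, hC₃]; ring
  have hcore := coreR (τ := τ) H hy3 hyℓ hn4 hτ1 hτb
  have hM := hlarge N y ℓ τ s H hy3 hR hyℓ hn4 hτb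
  rw [hR, Finset.sum_singleton] at hcore
  have hℓpos : 1 ≤ ℓ := by rw [hℓ]; omega
  have hℓ1R : (1 : ℝ) ≤ ℓ := by exact_mod_cast hℓpos
  set Z := (y : ℝ) * Real.sqrt y with hZ
  have hZ0 : 0 ≤ Z := by rw [hZ]; positivity
  have hℓκ : (1 : ℝ) ≤ (ℓ : ℝ) ^ κ := one_le_pow₀ hℓ1R
  have hcomb : L ≤ 10 ^ 64 * (1 + C) * (ℓ : ℝ) ^ (33 + κ) * T ^ 2 * Z := by
    have h1 : (τ : ℝ) * Z ≤ (ℓ : ℝ) ^ κ * T ^ 2 * Z := by
      apply mul_le_mul_of_nonneg_right _ hZ0
      have : (τ : ℝ) ≤ T ^ 2 := by nlinarith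
      calc (τ : ℝ) ≤ 1 * T ^ 2 := by rw [one_mul]; exact this
        _ ≤ _ := mul_le_mul_of_nonneg_right hℓκ (by positivity)
    have h2 : (C : ℝ) * (ℓ : ℝ) ^ κ * τ ^ 2 * Z ≤ C * ((ℓ : ℝ) ^ κ * T ^ 2 * Z) := by
      have h3 : (τ : ℝ) ^ 2 ≤ T ^ 2 := pow_le_pow_left₀ (by linarith) hτT 2
      calc (C : ℝ) * (ℓ : ℝ) ^ κ * τ ^ 2 * Z = C * ((ℓ : ℝ) ^ κ * τ ^ 2 * Z) := by ring
        _ ≤ _ := by gcongr
    calc L ≤ 10 ^ 64 * (ℓ : ℝ) ^ 33 * (τ * Z + (N.factorization s : ℝ) * Real.log s) := hcore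
      _ ≤ 10 ^ 64 * (ℓ : ℝ) ^ 33 * ((ℓ : ℝ) ^ κ * T ^ 2 * Z + C * ((ℓ : ℝ) ^ κ * T ^ 2 * Z)) :=
          mul_le_mul_of_nonneg_left (add_le_add h1 (hM.trans h2)) (by positivity)
      _ = _ := by rw [pow_add]; ring
  have hℓk : (ℓ : ℝ) ^ (33 + κ) ≤ 3 ^ (33 + κ) * (C₂ * L ^ (3 * ε / 4)) := by
    calc (ℓ : ℝ) ^ (33 + κ) ≤ (3 * (1 + Real.log L)) ^ (33 + κ) :=
          pow_le_pow_left₀ (Nat.cast_nonneg _) hℓ2 _
      _ = 3 ^ (33 + κ) * (1 + Real.log L) ^ (33 + κ) := mul_pow _ _ _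
      _ ≤ _ := mul_le_mul_of_nonneg_left (hlp L hL1.le) (by positivity)
  have hT2 : T ^ 2 = C₃ ^ 2 * L ^ (3 * ε / 4) := by
    rw [hT, mul_pow, ← Real.rpow_natCast (L ^ (3 * ε / 8)) 2, ← Real.rpow_mul hL0.le]
    congr 2
    push_cast
    ring
  have hZy : Z = (y : ℝ) ^ (3 / 2 : ℝ) := by
    rw [hZ, Real.sqrt_eq_rpow]
    nth_rewrite 1 [← Real.rpow_one (y : ℝ)]
    rw [← Real.rpow_add hy0]
    norm_num
  have hLL : L ^ (3 * ε / 4) * L ^ (3 * ε / 4) = L ^ (3 * ε / 2) := by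
    rw [← Real.rpow_add hL0]; congr 1; ring
  have hmain : L ≤ K * L ^ (3 * ε / 2) * (y : ℝ) ^ (3 / 2 : ℝ) := by
    calc L ≤ 10 ^ 64 * (1 + C) * (ℓ : ℝ) ^ (33 + κ) * T ^ 2 * Z := hcomb
      _ ≤ 10 ^ 64 * (1 + C) * (3 ^ (33 + κ) * (C₂ * L ^ (3 * ε / 4))) * T ^ 2 * Z := by gcongr
      _ = 10 ^ 64 * 3 ^ (33 + κ) * (1 + C) * C₂ * C₃ ^ 2 *
          (L ^ (3 * ε / 4) * L ^ (3 * ε / 4)) * Z := by rw [hT2]; ring
      _ = _ := by rw [hLL, ← hK, hZy]
  -- conclusion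
  have h1 : L ^ (1 - 3 * ε / 2) ≤ K * (y : ℝ) ^ (3 / 2 : ℝ) := by
    rw [Real.rpow_sub hL0, Real.rpow_one, div_le_iff₀ (by positivity)]
    calc L ≤ K * L ^ (3 * ε / 2) * (y : ℝ) ^ (3 / 2 : ℝ) := hmain
      _ = _ := by ring
  have h2 : (1 / K * L ^ (1 - 3 * ε / 2)) ^ (2 / 3 : ℝ) ≤ ((y : ℝ) ^ (3 / 2 : ℝ)) ^ (2 / 3 : ℝ) := by
    apply Real.rpow_le_rpow (by positivity) _ (by norm_num)
    rw [one_div, inv_mul_le_iff₀ hK0]
    exact h1
  rw [← Real.rpow_mul hy0.le, Real.mul_rpow (by positivity) (by positivity),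
    ← Real.rpow_mul hL0.le] at h2
  have e1 : (3 / 2 : ℝ) * (2 / 3) = 1 := by norm_num
  have e2 : (1 - 3 * ε / 2) * (2 / 3) = 2 / 3 - ε := by ring
  rw [e1, e2, Real.rpow_one] at h2
  calc min 1 ((1 / K) ^ (2 / 3 : ℝ)) * L ^ (2 / 3 - ε)
      ≤ (1 / K) ^ (2 / 3 : ℝ) * L ^ (2 / 3 - ε) :=
        mul_le_mul_of_nonneg_right (min_le_right _ _) hLpos.le
    _ ≤ y := h2

end Pool.Agent.Results.MP_f02ea4_nt.SecondLargestTwoThirds
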